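import Mathlib

/-! Module D5 of helper30's third round for MP_0ec205_nt: an elementary double sum. -/

namespace Pool.Agent.helper19.LS

open Finset

/-- The pointwise bound, for `n < m`. -/
theorem term_lt {m n : ℕ} (hn : 1 ≤ n) (hnm : n < m) :
    1 / Real.sqrt ((m : ℝ) * n) * (Real.sqrt ((m : ℝ) / n) + Real.sqrt ((n : ℝ) / m) +
        1 / |Real.log m - Real.log n|) ≤ 2 / n + 2 / m + 1 / ((m : ℝ) - n) := by
  have hn0 : (0 : ℝ) < n := by exact_mod_cast hn
  have hm0 : (0 : ℝ) < m := by
    have : 0 < m := by omega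
    exact_mod_cast this
  have hlt : (n : ℝ) < m := by exact_mod_cast hnm
  have hd : (0 : ℝ) < (m : ℝ) - n := by linarith
  have hs : 0 < Real.sqrt ((m : ℝ) * n) := Real.sqrt_pos.mpr (mul_pos hm0 hn0)
  have h1 : 1 / Real.sqrt ((m : ℝ) * n) * Real.sqrt ((m : ℝ) / n) = 1 / n := by
    rw [Real.sqrt_mul hm0.le, Real.sqrt_div hm0.le]
    have a := Real.sqrt_pos.mpr hm0
    have b := Real.sqrt_pos.mpr hn0
    have c := Real.mul_self_sqrt hn0.le
    field_simp
    nlinarith [c]
  have h2 : 1 / Real.sqrt ((m : ℝ) * n) * Real.sqrt ((n : ℝ) / m) = 1 / m := by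
    rw [Real.sqrt_mul hm0.le, Real.sqrt_div hn0.le]
    have a := Real.sqrt_pos.mpr hm0
    have b := Real.sqrt_pos.mpr hn0
    have c := Real.mul_self_sqrt hm0.le
    field_simp
    nlinarith [c]
  -- the logarithm
  have hlog : ((m : ℝ) - n) / m ≤ Real.log m - Real.log n := by
    have h := Real.add_one_le_exp (Real.log n - Real.log m)
    rw [Real.exp_sub, Real.exp_log hn0, Real.exp_log hm0] at h
    have e : ((m : ℝ) - n) / m = 1 - n / m := by field_simp
    rw [e]
    linarith
  have hlog0 : 0 < Real.log m - Real.log n := lt_of_lt_of_le (div_pos hd hm0) hlog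
  have h3 : 1 / Real.sqrt ((m : ℝ) * n) * (1 / |Real.log m - Real.log n|) ≤
      1 / n + 1 / ((m : ℝ) - n) := by
    rw [abs_of_pos hlog0]
    have hsn : (n : ℝ) ≤ Real.sqrt ((m : ℝ) * n) := by
      apply Real.le_sqrt_of_sq_le
      nlinarith
    have e1 : 1 / Real.sqrt ((m : ℝ) * n) ≤ 1 / n := one_div_le_one_div_of_le hn0 hsn
    have e2 : 1 / (Real.log m - Real.log n) ≤ m / ((m : ℝ) - n) := by
      rw [div_le_div_iff₀ hlog0 hd]
      rw [div_le_iff₀ hm0] at hlog
      linarith
    calc 1 / Real.sqrt ((m : ℝ) * n) * (1 / (Real.log m - Real.log n))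
        ≤ 1 / n * (m / ((m : ℝ) - n)) := by
          apply mul_le_mul e1 e2 (by positivity) (by positivity)
      _ = 1 / n + 1 / ((m : ℝ) - n) := by
          field_simp
          ring
  rw [mul_add, mul_add, h1, h2]
  have hm1 : 0 < 1 / (m : ℝ) := by positivity
  have e3 : 2 / (n : ℝ) = 1 / n + 1 / n := by ring
  have e4 : 2 / (m : ℝ) = 1 / m + 1 / m := by ring
  rw [e3, e4]
  linarith

/-- The pointwise bound. -/
theorem term_le {m n : ℕ} (hn : 1 ≤ n) (hm : 1 ≤ m) (h : n ≠ m) :
    1 / Real.sqrt ((m : ℝ) * n) * (Real.sqrt ((m : ℝ) / n) + Real.sqrt ((n : ℝ) / m) +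
        1 / |Real.log m - Real.log n|) ≤ 2 / n + 2 / m + 1 / |(m : ℝ) - n| := by
  rcases lt_or_gt_of_ne h with h | h
  · have hlt : (n : ℝ) < m := by exact_mod_cast h
    rw [abs_of_pos (show (0 : ℝ) < (m : ℝ) - n by linarith)]
    exact term_lt hn h
  · have hlt : (m : ℝ) < n := by exact_mod_cast h
    have := term_lt hm h
    rw [mul_comm (m : ℝ) n, add_comm (Real.sqrt ((m : ℝ) / n)), abs_sub_comm (Real.log m),
      abs_sub_comm (m : ℝ), abs_of_pos (show (0 : ℝ) < (n : ℝ) - m by linarith),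
      add_comm (2 / (n : ℝ))]
    exact this

/-- The harmonic sum. -/
theorem harm_le (N : ℕ) : ∑ k ∈ Finset.Icc 1 N, 1 / (k : ℝ) ≤ 1 + Real.log N := by
  have h := harmonic_le_one_add_log N
  rw [harmonic_eq_sum_Icc] at h
  push_cast at h
  simpa [one_div] using h

/-- The sum of `1/|m-n|`. -/
theorem dist_sum {N m : ℕ} (hm : m ∈ Finset.Icc 1 N) :
    ∑ n ∈ (Finset.Icc 1 N).erase m, 1 / |(m : ℝ) - n| ≤
      2 * ∑ k ∈ Finset.Icc 1 N, 1 / (k : ℝ) := by
  classical
  have hm' := Finset.mem_Icc.mp hm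
  rw [← Finset.sum_filter_add_sum_filter_not ((Finset.Icc 1 N).erase m) (fun n => n < m), two_mul]
  apply add_le_add
  · have hinj : Set.InjOn (fun n => m - n)
        (((Finset.Icc 1 N).erase m).filter (fun n => n < m) : Finset ℕ) := by
      intro a ha b hb hab
      rw [Finset.mem_coe, Finset.mem_filter, Finset.mem_erase] at ha hb
      simp only at hab
      omega
    have e : ∑ n ∈ ((Finset.Icc 1 N).erase m).filter (fun n => n < m), 1 / |(m : ℝ) - n| =
        ∑ k ∈ (((Finset.Icc 1 N).erase m).filter (fun n => n < m)).image (fun n => m - n),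
          1 / (k : ℝ) := by
      rw [Finset.sum_image hinj]
      apply Finset.sum_congr rfl
      intro n hn
      have hn' := (Finset.mem_filter.mp hn).2
      have hlt : (n : ℝ) < m := by exact_mod_cast hn'
      rw [Nat.cast_sub hn'.le, abs_of_pos (by linarith)]
    rw [e]
    apply Finset.sum_le_sum_of_subset_of_nonneg
    · intro k hk
      rw [Finset.mem_image] at hk
      obtain ⟨n, hn, rfl⟩ := hk
      rw [Finset.mem_filter, Finset.mem_erase, Finset.mem_Icc] at hn
      rw [Finset.mem_Icc]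
      omega
    · intro i _ _
      positivity
  · have hinj : Set.InjOn (fun n => n - m)
        (((Finset.Icc 1 N).erase m).filter (fun n => ¬ n < m) : Finset ℕ) := by
      intro a ha b hb hab
      rw [Finset.mem_coe, Finset.mem_filter, Finset.mem_erase] at ha hb
      simp only at hab
      omega
    have e : ∑ n ∈ ((Finset.Icc 1 N).erase m).filter (fun n => ¬ n < m), 1 / |(m : ℝ) - n| =
        ∑ k ∈ (((Finset.Icc 1 N).erase m).filter (fun n => ¬ n < m)).image (fun n => n - m),
          1 / (k : ℝ) := by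
      rw [Finset.sum_image hinj]
      apply Finset.sum_congr rfl
      intro n hn
      rw [Finset.mem_filter, Finset.mem_erase] at hn
      have hn' : m < n := by omega
      have hlt : (m : ℝ) < n := by exact_mod_cast hn'
      rw [Nat.cast_sub hn'.le, abs_sub_comm, abs_of_pos (by linarith)]
    rw [e]
    apply Finset.sum_le_sum_of_subset_of_nonneg
    · intro k hk
      rw [Finset.mem_image] at hk
      obtain ⟨n, hn, rfl⟩ := hk
      rw [Finset.mem_filter, Finset.mem_erase, Finset.mem_Icc] at hn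
      rw [Finset.mem_Icc]
      omega
    · intro i _ _
      positivity

theorem double_sum : ∃ C : ℝ, 0 < C ∧ ∀ N : ℕ, 2 ≤ N →
    ∑ m ∈ Finset.Icc 1 N, ∑ n ∈ (Finset.Icc 1 N).erase m,
      1 / Real.sqrt ((m : ℝ) * n) * (Real.sqrt ((m : ℝ) / n) + Real.sqrt ((n : ℝ) / m) +
        1 / |Real.log m - Real.log n|) ≤ C * (N * Real.log N) := by
  refine ⟨18, by norm_num, fun N hN => ?_⟩
  have hN0 : (0 : ℝ) < N := by
    have : 0 < N := by omega
    exact_mod_cast this
  set S : ℝ := ∑ k ∈ Finset.Icc 1 N, 1 / (k : ℝ) with hS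
  have hS0 : 0 ≤ S := Finset.sum_nonneg (fun i _ => by positivity)
  -- the inner sum
  have hin : ∀ m ∈ Finset.Icc 1 N, ∑ n ∈ (Finset.Icc 1 N).erase m,
      1 / Real.sqrt ((m : ℝ) * n) * (Real.sqrt ((m : ℝ) / n) + Real.sqrt ((n : ℝ) / m) +
        1 / |Real.log m - Real.log n|) ≤ 4 * S + 2 * N * (1 / (m : ℝ)) := by
    intro m hm
    have hm' := Finset.mem_Icc.mp hm
    calc ∑ n ∈ (Finset.Icc 1 N).erase m,
          1 / Real.sqrt ((m : ℝ) * n) * (Real.sqrt ((m : ℝ) / n) + Real.sqrt ((n : ℝ) / m) +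
          1 / |Real.log m - Real.log n|)
        ≤ ∑ n ∈ (Finset.Icc 1 N).erase m, (2 / n + 2 / m + 1 / |(m : ℝ) - n|) := by
          apply Finset.sum_le_sum
          intro n hn
          rw [Finset.mem_erase, Finset.mem_Icc] at hn
          exact term_le hn.2.1 hm'.1 hn.1
      _ = ∑ n ∈ (Finset.Icc 1 N).erase m, 2 / (n : ℝ) + ∑ n ∈ (Finset.Icc 1 N).erase m, 2 / (m : ℝ)
          + ∑ n ∈ (Finset.Icc 1 N).erase m, 1 / |(m : ℝ) - n| := by
          rw [Finset.sum_add_distrib, Finset.sum_add_distrib]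
      _ ≤ ∑ n ∈ Finset.Icc 1 N, 2 / (n : ℝ) + ∑ n ∈ Finset.Icc 1 N, 2 / (m : ℝ) + 2 * S := by
          apply add_le_add (add_le_add _ _) (dist_sum hm)
          · apply Finset.sum_le_sum_of_subset_of_nonneg (Finset.erase_subset _ _)
            intro i _ _
            positivity
          · apply Finset.sum_le_sum_of_subset_of_nonneg (Finset.erase_subset _ _)
            intro i _ _
            positivity
      _ = 4 * S + 2 * N * (1 / (m : ℝ)) := by
          have e1 : ∑ n ∈ Finset.Icc 1 N, 2 / (n : ℝ) = 2 * S := by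
            rw [hS, Finset.mul_sum]
            exact Finset.sum_congr rfl (fun i _ => by ring)
          rw [e1, Finset.sum_const, Nat.card_Icc, nsmul_eq_mul]
          simp only [Nat.add_sub_cancel]
          ring
  calc _ ≤ ∑ m ∈ Finset.Icc 1 N, (4 * S + 2 * N * (1 / (m : ℝ))) := Finset.sum_le_sum hin
    _ = 6 * (N * S) := by
        rw [Finset.sum_add_distrib, ← Finset.mul_sum (Finset.Icc 1 N) (fun m => 1 / (m : ℝ)), ← hS,
          Finset.sum_const, Nat.card_Icc, nsmul_eq_mul]
        simp only [Nat.add_sub_cancel]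
        ring
    _ ≤ 6 * (N * (1 + Real.log N)) := by
        have := harm_le N
        gcongr
    _ ≤ 18 * (N * Real.log N) := by
        have hlog : Real.log 2 ≤ Real.log N :=
          Real.log_le_log (by norm_num) (by exact_mod_cast hN)
        have h2 := Real.log_two_gt_d9
        nlinarith [mul_nonneg hN0.le (show (0 : ℝ) ≤ 2 * Real.log N - 1 by linarith)]

end Pool.Agent.helper19.LS
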